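import Pool.Agent.H24.UG.T9
import Pool.Agent.H24.T2.Cell

/-!
UNIFORM LOCAL GAP (`MP_c59857_nt`): row UNU, the invariant measure which belongs to a finitely
additive measure.
-/

set_option autoImplicit false

open MeasureTheory ProbabilityTheory Filter Topology Finset
open scoped Nat ENNReal

namespace Pool.Agent.H99.UG

open Pool.Agent.H24.UG
open Pool.Agent.H24.MR (FinAddInv)
open Pool.Agent.H24.T2 (fa_fiber)

/-- the indicator function of a clopen set -/
noncomputable def unuInd {Ω : Type} [TopologicalSpace Ω] (C : Set Ω) (hC : IsClopen C) : C(Ω, ℝ) :=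
  ⟨C.indicator 1, (continuous_indicator (by
    intro a ha
    rw [hC.frontier_eq] at ha
    exact absurd ha (Set.notMem_empty a)) (continuous_const.continuousOn))⟩

theorem unu_int {Ω : Type} [TopologicalSpace Ω] [MeasurableSpace Ω] [BorelSpace Ω] (C : Set Ω)
    (hC : IsClopen C) (P : Measure Ω) : ∫ ω, unuInd C hC ω ∂P = P.real C := by
  change ∫ ω, C.indicator 1 ω ∂P = P.real C
  rw [integral_indicator_one hC.isOpen.measurableSet]

/-- a measure with the right values on finitely many clopen sets -/
theorem unu_fin {Ω : Type} [TopologicalSpace Ω] [CompactSpace Ω] [T2Space Ω]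
    [MeasurableSpace Ω] [BorelSpace Ω] (μ : Set ℕ → ℝ) (pt : ℕ → Ω) (hμ : FinAddInv μ) (J : ℕ)
    (C : Fin J → Set Ω) (hC : ∀ i, IsClopen (C i)) :
    ∃ P : Measure Ω, IsProbabilityMeasure P ∧ ∀ i, P.real (C i) = μ {n | pt n ∈ C i} := by
  classical
  let f : ℕ → (Fin J → Bool) := fun n i => decide (pt n ∈ C i)
  let x : (Fin J → Bool) → Ω := fun v => if h : ∃ n, f n = v then pt h.choose else pt 0
  have hx : ∀ v, (∃ n, f n = v) → ∀ i, (x v ∈ C i ↔ v i = true) := by
    intro v hv i
    have h1 : x v = pt hv.choose := dif_pos hv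
    have h2 : f hv.choose i = v i := congrFun hv.choose_spec i
    rw [h1, ← h2]
    change _ ↔ decide _ = true
    rw [decide_eq_true_eq]
  have hsum : ∀ A : Set ℕ, μ A = ∑ v, μ {n | n ∈ A ∧ f n = v} := fun A =>
    fa_fiber hμ f Finset.univ (fun n => Finset.mem_univ _) A
  have h0 : μ ∅ = 0 := by
    have h := hμ.add ∅ ∅ (Set.disjoint_empty _)
    rw [Set.union_empty] at h
    linarith
  let P : Measure Ω := ∑ v, ENNReal.ofReal (μ {n | f n = v}) • Measure.dirac (x v)
  have hu : ∑ v, μ {n | f n = v} = 1 := by
    have h := hsum Set.univ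
    rw [hμ.univ] at h
    rw [h]
    refine Finset.sum_congr rfl fun v _ => ?_
    congr 1
    ext n
    simp
  have hP : IsProbabilityMeasure P := by
    refine ⟨?_⟩
    change (∑ v, ENNReal.ofReal (μ {n | f n = v}) • Measure.dirac (x v)) Set.univ = 1
    rw [Measure.finsetSum_apply]
    simp only [Measure.smul_apply, measure_univ, smul_eq_mul, mul_one]
    rw [← ENNReal.ofReal_sum_of_nonneg (fun v _ => hμ.nonneg _), hu, ENNReal.ofReal_one]
  refine ⟨P, hP, fun i => ?_⟩
  have h1 : P (C i) = ENNReal.ofReal (μ {n | pt n ∈ C i}) := by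
    change (∑ v, ENNReal.ofReal (μ {n | f n = v}) • Measure.dirac (x v)) (C i) = _
    rw [Measure.finsetSum_apply, hsum {n | pt n ∈ C i},
      ENNReal.ofReal_sum_of_nonneg (fun v _ => hμ.nonneg _)]
    refine Finset.sum_congr rfl fun v _ => ?_
    rw [Measure.smul_apply, smul_eq_mul, Measure.dirac_apply' _ (hC i).isOpen.measurableSet]
    by_cases hv : ∃ n, f n = v
    · by_cases hvi : v i = true
      · have h2 : x v ∈ C i := (hx v hv i).2 hvi
        have h3 : {n | n ∈ {n | pt n ∈ C i} ∧ f n = v} = {n | f n = v} := by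
          ext n
          constructor
          · exact fun h => h.2
          · intro h
            refine ⟨?_, h⟩
            have h4 : f n i = true := by
              have h5 : f n = v := h
              rw [h5]
              exact hvi
            exact of_decide_eq_true h4
        rw [Set.indicator_of_mem h2, h3, Pi.one_apply, mul_one]
      · have h2 : x v ∉ C i := fun h => hvi ((hx v hv i).1 h)
        have h3 : {n | n ∈ {n | pt n ∈ C i} ∧ f n = v} = ∅ := by
          ext n
          constructor
          · rintro ⟨h4, h5⟩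
            have h6 : f n i = true := decide_eq_true h4
            have h7 : f n = v := h5
            rw [h7] at h6
            exact absurd h6 hvi
          · intro h
            exact absurd h (Set.notMem_empty n)
        rw [Set.indicator_of_notMem h2, h3, h0, mul_zero, ENNReal.ofReal_zero]
    · have h2 : {n | f n = v} = ∅ := by
        ext n
        constructor
        · exact fun h => absurd ⟨n, h⟩ hv
        · intro h
          exact absurd h (Set.notMem_empty n)
      have h3 : {n | n ∈ {n | pt n ∈ C i} ∧ f n = v} = ∅ := by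
        ext n
        constructor
        · exact fun h => absurd ⟨n, h.2⟩ hv
        · intro h
          exact absurd h (Set.notMem_empty n)
      rw [h2, h3, h0, ENNReal.ofReal_zero, zero_mul]
  rw [measureReal_def, h1, ENNReal.toReal_ofReal (hμ.nonneg _)]

theorem pf_UNU (hc : Pool.Agent.H80.AG.T_CPL) : T_UNU := by
  classical
  intro Ω _ _ _ _ _ _ _ T μ pt hμ hpt
  have hcount : Countable (TopologicalSpace.Clopens Ω) :=
    TopologicalSpace.Clopens.countable_iff_secondCountable.2 inferInstance
  have hne : Nonempty (TopologicalSpace.Clopens Ω) := ⟨⊤⟩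
  obtain ⟨e, he⟩ := exists_surjective_nat (TopologicalSpace.Clopens Ω)
  have h1 : ∀ J : ℕ, ∃ P : Measure Ω, IsProbabilityMeasure P ∧ ∀ i : Fin J,
      P.real (e i : Set Ω) = μ {n | pt n ∈ (e i : Set Ω)} := fun J =>
    unu_fin μ pt hμ J (fun i => (e i : Set Ω)) fun i => (e i).isClopen
  choose P hP1 hP2 using h1
  obtain ⟨ν, hν, hl⟩ := hc Ω (hyperfilter ℕ) P (Eventually.of_forall hP1)
  have key : ∀ C : Set Ω, IsClopen C → ν.real C = μ {n | pt n ∈ C} := by
    intro C hC
    obtain ⟨i, hi⟩ := he ⟨C, hC⟩
    have h2 := hl (unuInd C hC)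
    rw [unu_int] at h2
    refine tendsto_nhds_unique h2 (tendsto_const_nhds.congr' ?_)
    have h3 : ∀ᶠ J in (hyperfilter ℕ : Filter ℕ), i < J :=
      (Nat.hyperfilter_le_atTop) (eventually_gt_atTop i)
    filter_upwards [h3] with J hJ
    rw [unu_int]
    have h4 := hP2 J ⟨i, hJ⟩
    simp only [hi] at h4
    exact h4.symm
  refine ⟨ν, hν, ?_, key⟩
  refine ⟨T.continuous.measurable, ?_⟩
  have hmT : Measurable T := T.continuous.measurable
  have hmap : IsProbabilityMeasure (ν.map T) :=
    Measure.isProbabilityMeasure_map hmT.aemeasurable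
  refine ext_of_generate_finite {s : Set Ω | IsClopen s} ?_ ?_ ?_ ?_
  · rw [BorelSpace.measurable_eq (α := Ω)]
    exact isTopologicalBasis_isClopen.borel_eq_generateFrom
  · intro s hs t ht _
    exact IsClopen.inter hs ht
  · intro C hC
    have hC' : IsClopen C := hC
    have h2 : ν.map T C = ν (T ⁻¹' C) := Measure.map_apply hmT hC'.isOpen.measurableSet
    rw [h2]
    have h3 : IsClopen (T ⁻¹' C) := hC'.preimage T.continuous
    have h4 : ν.real (T ⁻¹' C) = ν.real C := by
      rw [key _ h3, key _ hC', ← hμ.shift {n | pt n ∈ C}]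
      congr 1
      ext n
      change T (pt n) ∈ C ↔ pt (n + 1) ∈ C
      rw [hpt]
    rw [measureReal_def, measureReal_def] at h4
    exact (ENNReal.toReal_eq_toReal_iff' (measure_ne_top _ _) (measure_ne_top _ _)).1 h4
  · rw [measure_univ, measure_univ]

end Pool.Agent.H99.UG
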